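import Mathlib

namespace Pool.Agent.Results.MP_177738_an.Counter

/-- The Pareto solution set: no `y ∈ K` has `F(x)(x - y) ∈ ℝ^m_+ \ {0}`. -/
def Sol {n m : ℕ} (F : Fin m → EuclideanSpace ℝ (Fin n) → EuclideanSpace ℝ (Fin n))
    (K : Set (EuclideanSpace ℝ (Fin n))) : Set (EuclideanSpace ℝ (Fin n)) :=
  {x | x ∈ K ∧ ∀ y ∈ K, ¬ ((∀ l, 0 ≤ inner ℝ (F l x) (x - y)) ∧
    (fun l => inner ℝ (F l x) (x - y)) ≠ (0 : Fin m → ℝ))}

abbrev E := EuclideanSpace ℝ (Fin 3)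

def K : Set E := {x | 0 ≤ x 0 ∧ x 0 ≤ 1 ∧ x 1 ^ 2 ≤ x 2 ∧ x 2 ≤ 1}

noncomputable def F : Fin 2 → E → E :=
  ![fun x => !₂[2 * x 1 ^ 2 - x 2, (5 - 4 * x 0) * x 1, x 0], fun _ => !₂[0, 1, 0]]

lemma inner_eq (a b : E) : inner ℝ a b = a 0 * b 0 + a 1 * b 1 + a 2 * b 2 := by
  simp [PiLp.inner_apply, Fin.sum_univ_three, mul_comm]

lemma mem_Sol (x : E) : x ∈ Sol F K ↔ x ∈ K ∧ ∀ y ∈ K,
    0 ≤ (2 * x 1 ^ 2 - x 2) * (x 0 - y 0) + (5 - 4 * x 0) * x 1 * (x 1 - y 1) + x 0 * (x 2 - y 2) →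
    0 ≤ x 1 - y 1 →
    (2 * x 1 ^ 2 - x 2) * (x 0 - y 0) + (5 - 4 * x 0) * x 1 * (x 1 - y 1) + x 0 * (x 2 - y 2) = 0 ∧
      x 1 - y 1 = 0 := by
  simp [Sol, Fin.forall_fin_two, funext_iff, inner_eq, F]

theorem result : ∃ (n m : ℕ) (K : Set (EuclideanSpace ℝ (Fin n)))
    (F : Fin m → EuclideanSpace ℝ (Fin n) → EuclideanSpace ℝ (Fin n)),
    1 ≤ n ∧ 1 ≤ m ∧ K.Nonempty ∧ IsClosed K ∧ Convex ℝ K ∧ (∀ l, ContinuousOn (F l) K) ∧
    (∀ l, ∀ x ∈ K, ∀ y ∈ K, 0 ≤ inner ℝ (F l y - F l x) (y - x)) ∧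
    ¬ IsPreconnected (Sol F K) ∧ Bornology.IsBounded (Sol F K) := by
  refine ⟨3, 2, K, F, by norm_num, by norm_num, ⟨0, by simp [K]⟩, ?_, ?_, ?_, ?_, ?_, ?_⟩
  · have c1 : IsClosed {x : E | 0 ≤ x 0} := isClosed_le (by fun_prop) (by fun_prop)
    have c2 : IsClosed {x : E | x 0 ≤ 1} := isClosed_le (by fun_prop) (by fun_prop)
    have c3 : IsClosed {x : E | x 1 ^ 2 ≤ x 2} := isClosed_le (by fun_prop) (by fun_prop)
    have c4 : IsClosed {x : E | x 2 ≤ 1} := isClosed_le (by fun_prop) (by fun_prop)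
    exact c1.inter (c2.inter (c3.inter c4))
  · rintro x ⟨h1, h2, h3, h4⟩ y ⟨k1, k2, k3, k4⟩ a b ha hb hab
    obtain rfl : b = 1 - a := by linarith
    simp only [K, Set.mem_setOf_eq, PiLp.add_apply, PiLp.smul_apply, smul_eq_mul]
    refine ⟨by positivity, by nlinarith, ?_, by nlinarith⟩
    nlinarith [mul_nonneg (mul_nonneg ha hb) (sq_nonneg (x 1 - y 1)), mul_nonneg ha (sub_nonneg.2 h3),
      mul_nonneg hb (sub_nonneg.2 k3)]
  · intro l
    apply Continuous.continuousOn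
    fin_cases l
    · simp only [F]
      change Continuous fun x : E => !₂[2 * x 1 ^ 2 - x 2, (5 - 4 * x 0) * x 1, x 0]
      refine (PiLp.continuous_toLp 2 _).comp (continuous_pi fun i => ?_)
      fin_cases i <;> simp <;> fun_prop
    · exact continuous_const
  · rintro l x ⟨h1, h2, -, -⟩ y ⟨k1, k2, -, -⟩
    fin_cases l
    · simp only [inner_eq, F]
      simp
      nlinarith [mul_nonneg (sq_nonneg (y 1 - x 1)) (by linarith : 0 ≤ 5 - 2 * (y 0 + x 0))]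
    · simp [F]
  · intro h
    have hU : IsOpen {x : E | x 0 + x 1 < 0} := isOpen_lt (by fun_prop) (by fun_prop)
    have hV : IsOpen {x : E | 0 < x 0 + x 1} := isOpen_lt (by fun_prop) (by fun_prop)
    obtain ⟨x, -, h1, h2⟩ := h _ _ hU hV (fun x hx => by
      rw [mem_Sol] at hx
      obtain ⟨⟨h1, h2, h3, h4⟩, hx⟩ := hx
      by_contra hc
      simp only [Set.mem_union, Set.mem_setOf_eq, not_or, not_lt] at hc
      have e : x 1 = -x 0 := by linarith [hc.1, hc.2]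
      rcases h1.eq_or_lt with h0 | h0
      · have := hx !₂[0, -1, 1] (by simp [K]) (by simp [e, ← h0]) (by simp [e, ← h0])
        simp [e, ← h0] at this
      · rcases h3.eq_or_lt with h5 | h5
        · have := hx !₂[0, x 1, x 2] (by simp [K, h3, h4]) (by
            simp; nlinarith [mul_pos h0 (mul_pos h0 h0)]) (by simp)
          simp [← h5, e, h0.ne'] at this
          nlinarith [mul_pos h0 h0]
        · have := hx !₂[x 0, x 1, x 1 ^ 2] (by simp [K, h1, h2, e, abs_of_nonneg]) (by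
            simp; nlinarith) (by simp)
          simp [h0.ne'] at this
          linarith)
      ⟨!₂[0, -1, 1], by
        rw [mem_Sol]
        refine ⟨by simp [K], ?_⟩
        rintro y ⟨k1, k2, k3, k4⟩
        simp
        intro a b
        have : y 1 = -1 := by nlinarith
        constructor <;> nlinarith, by simp⟩
      ⟨!₂[1, 0, 0], by
        rw [mem_Sol]
        refine ⟨by simp [K], ?_⟩
        rintro y ⟨k1, k2, k3, k4⟩
        simp
        intro a b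
        constructor <;> nlinarith, by simp⟩
    simp only [Set.mem_setOf_eq] at h1 h2
    linarith
  · refine isBounded_iff_forall_norm_le.2 ⟨2, fun x hx => ?_⟩
    obtain ⟨h1, h2, h3, h4⟩ := hx.1
    rw [EuclideanSpace.norm_eq, Real.sqrt_le_iff]
    simp only [Fin.sum_univ_three, Real.norm_eq_abs, sq_abs]
    refine ⟨by norm_num, by nlinarith [sq_nonneg (x 1)]⟩

end Pool.Agent.Results.MP_177738_an.Counter
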